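import Pool.Agent.U167.SA.Stm3
import Pool.Agent.U363.SA.ASM

/-!
Project SA (helper167), package ASMG: the swapping inequality in the infinite volume for a general
domain and for fixed configurations in the inner box.
-/

set_option autoImplicit false

namespace Pool.Agent.U147.SA

open H974 Finset Filter Topology
open Pool.Agent.U167.SA Pool.Agent.U363.SA

theorem okh : Ok (fun _ : Edg => (1/2 : ℝ)) := fun _ => ⟨by norm_num, by norm_num⟩

theorem md_mono {m : ℕ} {η F F' : Finset Edg} (h : F ⊆ F') : md m η F ⊆ md m η F' := by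
  unfold md
  exact union_subset_union (sdiff_subset_sdiff h subset_rfl) subset_rfl

/-- replacing the configuration in the inner box commutes with mixing -/
theorem mix_md {m : ℕ} {I η η' F F' : Finset Edg} (hI : boxE m ⊆ I) (hη : η ⊆ boxE m)
    (hη' : η' ⊆ boxE m) : mix I (md m η F) (md m η' F') = md m η (mix I F F') := by
  ext e
  simp only [mix, md, mem_union, mem_inter, Finset.mem_sdiff]
  have h1 : e ∈ boxE m → e ∈ I := fun h => hI h
  have h2 : e ∈ η → e ∈ boxE m := fun h => hη h
  have h3 : e ∈ η' → e ∈ boxE m := fun h => hη' h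
  tauto

theorem md_inter {m : ℕ} {η F R : Finset Edg} (hη : η ⊆ boxE m) (hR : Disjoint R (boxE m)) :
    md m η F ∩ R = F ∩ R := by
  ext e
  simp only [md, mem_union, mem_inter, Finset.mem_sdiff]
  have h1 : e ∈ R → e ∉ boxE m := fun h => disjoint_left.1 hR h
  have h2 : e ∈ η → e ∈ boxE m := fun h => hη h
  tauto

theorem PMm_mono (m : ℕ) (η : Finset Edg) (G : Set Edg) (A : Set Vtx) (n : ℤ) :
    Monotone (PMm m η G A n) := by
  intro M M' h
  exact Pr_mono_set okh (boxE_mono h) (fun _ _ h _ hF => Hit_mono (md_mono h) hF)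

theorem PMm_tendsto (m : ℕ) (η : Finset Edg) (G : Set Edg) (A : Set Vtx) (n : ℤ) :
    Tendsto (PMm m η G A n) atTop (𝓝 (PPm m η G A n)) := by
  refine tendsto_atTop_ciSup (PMm_mono m η G A n) ⟨1, ?_⟩
  rintro _ ⟨M, rfl⟩
  exact Pr_le_one okh _ _

theorem t_ASMG : ASMGStm := by
  intro h1 D s0 Qe h2 h3
  obtain ⟨δ, hδ0, hδ1, hQ⟩ := h3
  have hδ4 : 0 < δ ^ 4 := by positivity
  have hδ4' : δ ^ 4 ≤ 1 := pow_le_one₀ hδ0.le hδ1
  refine ⟨s0, 1 - δ ^ 4, by linarith, by linarith, ?_⟩
  intro K m R η1 η2 G11 G12 G21 G22 A1 A2 n1 n2 hm hm0 hη1 hη2 hA1 hA2 hR hin hout hD hn1 hn2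
  have hfin : ∀ M : ℕ, R ≤ M → PMm m η1 G11 A1 n1 M * PMm m η2 G22 A2 n2 M ≤
      PMm m η1 G12 A1 n2 M * PMm m η2 G21 A2 n1 M +
        (1 - δ ^ 4) ^ K * (PMm m η1 G11 A1 n1 M * PMm m η2 G22 A2 n2 M) := by
    intro M hM
    have hsR : ∀ i < K, 80 * (64 ^ i * m) + 1 ≤ R := fun i hi => (scale_le hm hi).trans hR
    refine h1 (fun _ => (1/2 : ℝ)) okh (boxE M) K
      (fun i => boxE (16 * (64 ^ i * m))) (fun i => Rg (64 ^ i * m)) (fun i => Qe (64 ^ i * m))
      (fun F => Hit G11 A1 n1 (md m η1 F)) (fun F => Hit G12 A1 n2 (md m η1 F))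
      (fun F => Hit G21 A2 n1 (md m η2 F)) (fun F => Hit G22 A2 n2 (md m η2 F))
      δ hδ0.le ?_ ?_ ?_ ?_ ?_ ?_ ?_ ?_ ?_
    · intro i j hij _
      have := scale_step (m := m) hij
      have h1' := one_le_scale (m := m) (i := i) hm
      exact sdiff_subset.trans (boxE_mono (by omega))
    · intro i j hij _
      have := scale_step (m := m) hij
      have h1' := one_le_scale (m := m) (i := i) hm
      refine (disjoint_sdiff (s := boxE (2 * (64 ^ j * m) - 1)) (t := boxE (80 * (64 ^ j * m) + 1))).mono_left ?_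
      exact sdiff_subset.trans (boxE_mono (by omega))
    · intro i hi
      exact sdiff_subset.trans (boxE_mono ((hsR i hi).trans hM))
    · intro i _ F
      exact (hQ _ (Nat.mul_pos (by positivity) hm)).1 F
    · intro i _ F G
      exact (hQ _ (Nat.mul_pos (by positivity) hm)).2.1 F G
    · intro i hi
      exact (hQ _ (Nat.mul_pos (by positivity) hm)).2.2 _ (boxE_mono ((hsR i hi).trans hM))
    · exact fun F G h hF => Hit_mono (md_mono h) hF
    · exact fun F G h hF => Hit_mono (md_mono h) hF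
    · intro i hi F F' _ _ _ _ hmix1 hmix2 hX1 hX2
      have hs := one_le_scale (m := m) (i := i) hm
      have hsi := hsR i hi
      have hQs := (hQ (64 ^ i * m) (Nat.mul_pos (by positivity) hm)).1
      obtain ⟨s, hs'⟩ : ∃ s, s = 64 ^ i * m := ⟨_, rfl⟩
      simp only [← hs'] at hs hsi hmix1 hmix2 hQs ⊢
      have hs0 : 0 < s := by omega
      have hmz : (m : ℤ) ≤ s := by exact_mod_cast hs
      have hRz : (80 * s + 1 : ℤ) ≤ R := by exact_mod_cast hsi
      have e1 : boxE (16 * s) ⊆ boxE R := boxE_mono (by omega)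
      have e2 : boxE m ⊆ boxE (16 * s) := boxE_mono (by omega)
      have e3 : boxE (80 * s + 1) ⊆ boxE R := boxE_mono hsi
      have e4 : boxE m ⊆ boxE (2 * s - 1) := boxE_mono (by omega)
      have e5 : ∀ v ∈ A1, inB (2 * s) v := fun v hv => inB_mono (by omega) (hA1 v hv)
      have e6 : ∀ v ∈ A2, inB (2 * s) v := fun v hv => inB_mono (by omega) (hA2 v hv)
      have e7 : Disjoint (Rg s) (boxE m) :=
        (disjoint_sdiff (s := boxE (2 * s - 1)) (t := boxE (80 * s + 1))).symm.mono_right e4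
      have e8 : ∀ (η F : Finset Edg), η ⊆ boxE m → Qe s F → Qe s (md m η F) := by
        intro η F hη hF
        rw [hQs, md_inter hη e7, ← hQs]
        exact hF
      constructor
      · have h5 := h2 s hs0 (by omega) G11 G22 G12 ?_ ?_ ?_ A1 A2 e5 e6 n1 n2
          (by linarith) (by linarith) (md m η1 F) (md m η2 F') ?_ hX1 hX2
        · rwa [mix_md e2 hη1 hη2] at h5
        · exact fun e he => (hin e (e1 he)).1
        · exact fun e he => (hout e (fun h => he (e2 h))).2.symm
        · intro e he he'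
          rw [← (hin e (e3 he)).1]
          exact hD e (e3 he) (fun h => he' (e4 h))
        · rw [mix_md e2 hη1 hη2]
          exact e8 _ _ hη1 hmix1
      · have h5 := h2 s hs0 (by omega) G22 G11 G21 ?_ ?_ ?_ A2 A1 e6 e5 n2 n1
          (by linarith) (by linarith) (md m η2 F') (md m η1 F) ?_ hX2 hX1
        · rwa [mix_md e2 hη2 hη1] at h5
        · exact fun e he => (hin e (e1 he)).2.symm
        · exact fun e he => (hout e (fun h => he (e2 h))).1
        · intro e he he'
          rw [← (hout e (fun h => he' (e4 h))).1]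
          exact hD e (e3 he) (fun h => he' (e4 h))
        · rw [mix_md e2 hη2 hη1]
          exact e8 _ _ hη2 hmix2
  refine le_of_tendsto_of_tendsto ((PMm_tendsto m η1 G11 A1 n1).mul (PMm_tendsto m η2 G22 A2 n2))
    (((PMm_tendsto m η1 G12 A1 n2).mul (PMm_tendsto m η2 G21 A2 n1)).add
      (((PMm_tendsto m η1 G11 A1 n1).mul (PMm_tendsto m η2 G22 A2 n2)).const_mul _)) ?_
  filter_upwards [eventually_ge_atTop R] with M hM
  exact hfin M hM

end Pool.Agent.U147.SA
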